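import Pool.Agent.Helper42.QD.Stmts

namespace Pool.Agent.Helper42.QD

theorem diag_H {D k : Type} [DivisionRing D] [Field k] {c : VD D k} {R : KM c} {h : ℕ} {oh m : D}
    (ho : IsOh R h oh) (H : ∃ z, c.P h z ∧ c.P 1 (m * z + z * m - oh * z + 1)) :
    ∃ z, c.P h z ∧ c.P 1 (c.T * m * c.T⁻¹ * z + z * (c.T * m * c.T⁻¹) - oh * z + 1) := by
  obtain ⟨z, hz, h1⟩ := H
  refine ⟨c.T * z * c.T⁻¹, VD.P_conj c.T_ne hz, ?_⟩
  have h2 := VD.P_conj c.T_ne h1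
  have h3 := VD.P_mul (ho.2.2 c.T c.T_ne) (VD.P_conj c.T_ne hz)
  have h4 := VD.P_add h2 (VD.P_mono (by omega : (1 : ℤ) ≤ 1 - h + h) h3)
  have hT := inv_mul_cancel₀ c.T_ne
  have hT' := mul_inv_cancel₀ c.T_ne
  have e : c.T * m * c.T⁻¹ * (c.T * z * c.T⁻¹) + c.T * z * c.T⁻¹ * (c.T * m * c.T⁻¹) -
      oh * (c.T * z * c.T⁻¹) + 1 = c.T * (m * z + z * m - oh * z + 1) * c.T⁻¹ +
      (c.T * oh * c.T⁻¹ - oh) * (c.T * z * c.T⁻¹) := by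
    have e1 : c.T * m * c.T⁻¹ * (c.T * z * c.T⁻¹) = c.T * m * z * c.T⁻¹ := by
      rw [show c.T * m * c.T⁻¹ * (c.T * z * c.T⁻¹) = c.T * m * (c.T⁻¹ * c.T) * z * c.T⁻¹ by
        noncomm_ring, hT, mul_one]
    have e2 : c.T * z * c.T⁻¹ * (c.T * m * c.T⁻¹) = c.T * z * m * c.T⁻¹ := by
      rw [show c.T * z * c.T⁻¹ * (c.T * m * c.T⁻¹) = c.T * z * (c.T⁻¹ * c.T) * m * c.T⁻¹ by
        noncomm_ring, hT, mul_one]
    have e3 : c.T * oh * c.T⁻¹ * (c.T * z * c.T⁻¹) = c.T * oh * z * c.T⁻¹ := by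
      rw [show c.T * oh * c.T⁻¹ * (c.T * z * c.T⁻¹) = c.T * oh * (c.T⁻¹ * c.T) * z * c.T⁻¹ by
        noncomm_ring, hT, mul_one]
    have e4 : c.T * (m * z + z * m - oh * z + 1) * c.T⁻¹ = c.T * m * z * c.T⁻¹ +
        c.T * z * m * c.T⁻¹ - c.T * oh * z * c.T⁻¹ + c.T * c.T⁻¹ := by
      noncomm_ring
    rw [e1, e2, e4, sub_mul, e3, hT']
    abel
  rw [e]
  exact h4

theorem st_DIAG (hDG2 : ST_DG2) (hDG3 : ST_DG3) : ST_DIAG := by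
  intro D k _ _ _ c R h oh m0 m1 f hh ho hm0 hm1 H hf
  by_contra hne
  obtain ⟨f0, hf0, hT0, hs0⟩ := hDG2 D k c R h oh m0 m1 f hh ho hm0 hm1 H hf hne
  have main : ∀ n : ℕ, ∃ (m : D) (g : Sp c), g ≠ 0 ∧ c.P (-h) m ∧
      (∃ z, c.P h z ∧ c.P 1 (m * z + z * m - oh * z + 1)) ∧ Ty R h !![m, 0; 0, m1] g ∧
      (∀ x, c.P 0 x → g.1 x = f0.1 (x * c.T ^ n)) ∧ ∀ x, g.1 x ≠ 0 → c.P 0 x := by
    intro n
    induction n with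
    | zero => exact ⟨m0, f0, hf0, hm0, H, hT0, fun x _ => by simp, hs0⟩
    | succ n ih =>
      obtain ⟨m, g, hg, hm, Hm, hT, hx, hs⟩ := ih
      obtain ⟨g', hg', hT', hx', hs'⟩ := hDG3 D k c R h oh m m1 g hh ho hm hm1 Hm hT hg hs
      refine ⟨c.T * m * c.T⁻¹, g', hg', VD.P_conj c.T_ne hm, diag_H ho Hm, hT', fun x hx0 => ?_, hs'⟩
      rw [hx' x hx0, hx _ (VD.P_mul' hx0 (show c.P 1 c.T from Or.inr (by rw [c.v_T])) (by omega)),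
        mul_assoc, pow_succ' c.T n]
  obtain ⟨-, M, hM, -, hb⟩ := f0.2
  obtain ⟨m, g, hg, -, -, -, hx, hs⟩ := main (M + 1)
  obtain ⟨x, hx0, hgx⟩ := exists_ne hg
  have hP := hs x hgx
  have hv := (VD.P_iff hx0).1 hP
  rw [hx x hP] at hgx
  have h5 := (hb _ hgx).2
  have hTn : c.T ^ (M + 1) ≠ 0 := pow_ne_zero _ c.T_ne
  rw [c.v_mul _ _ hx0 hTn] at h5
  have h6 := VD.v_T_zpow (c := c) ((M + 1 : ℕ) : ℤ)
  rw [zpow_natCast] at h6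
  rw [h6] at h5
  push_cast at h5
  omega

end Pool.Agent.Helper42.QD
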