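import Pool.Agent.Helper42.QD.Stmts

namespace Pool.Agent.Helper42.QD

theorem st_EIG : ST_EIG := by
  intro D k _ _ c R h oh x B z1 z2 f hh hoh hx hB hz1 hz2 hz h1 h2 hf
  have hz' : ¬ c.P 1 (z2 - z1) := fun hc => hz (VD.P_sub_comm hc)
  have hne : z2 - z1 ≠ 0 := VD.ne_of_not_P hz'
  have hlt := VD.lt_of_not_P hz'
  have hge := (VD.P_iff hne).1 (VD.P_sub hz2 hz1)
  have hv : c.v (z2 - z1) = 0 := by omega
  have hK : KO c (nm (1 : D) * dg 1 (z2 - z1) * nn z1) :=
    KO_mul (KO_mul (KO_nm VD.P_one) (KO_dg one_ne_zero hne VD.v_one hv)) (KO_nn hz1)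
  generalize hg : nm (1 : D) * dg 1 (z2 - z1) * nn z1 = g at hK
  have hval : g.val = !![1, z1; 1, z2] := by
    rw [← hg, Units.val_mul, Units.val_mul, dg_val one_ne_zero hne, nm_val, nn_val]
    ext i j
    fin_cases i <;> fin_cases j <;> simp [Matrix.mul_apply, Fin.sum_univ_two]
  refine ⟨g, Ty_congr (fun i j => ?_) (Ty_KO hK hf)⟩
  have key : g.val * !![0, B; x, oh] * g⁻¹.val - !![z1 * x, 0; 0, z2 * x] =
      (g.val * !![0, B; x, oh] - !![z1 * x, 0; 0, z2 * x] * g.val) * g⁻¹.val := by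
    rw [sub_mul, mul_assoc (!![z1 * x, 0; 0, z2 * x]), Units.mul_inv, mul_one]
  have hE : ∀ i j, c.P (1 - h) ((g.val * !![0, B; x, oh] -
      !![z1 * x, 0; 0, z2 * x] * g.val) i j) := by
    intro i j
    rw [hval]
    fin_cases i <;> fin_cases j <;>
      simp only [Matrix.sub_apply, Matrix.mul_apply, Fin.sum_univ_two, Matrix.of_apply,
        Matrix.cons_val', Matrix.cons_val_zero, Matrix.cons_val_one, Matrix.cons_val_fin_one,
        Fin.zero_eta, Fin.mk_one, Fin.isValue]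
    · have : (1 * 0 + z1 * x) - (z1 * x * 1 + 0 * 1) = (0 : D) := by noncomm_ring
      rw [this]; exact VD.P_zero c _
    · have : (1 * B + z1 * oh) - (z1 * x * z1 + 0 * z2) = B + z1 * oh - z1 * x * z1 := by
        noncomm_ring
      rw [this]; exact h1
    · have : (1 * 0 + z2 * x) - (0 * 1 + z2 * x * 1) = (0 : D) := by noncomm_ring
      rw [this]; exact VD.P_zero c _
    · have : (1 * B + z2 * oh) - (0 * z1 + z2 * x * z2) = B + z2 * oh - z2 * x * z2 := by
        noncomm_ring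
      rw [this]; exact h2
  have h3 : (g.val * !![0, B; x, oh] * g⁻¹.val) i j - !![z1 * x, 0; 0, z2 * x] i j =
      (g.val * !![0, B; x, oh] * g⁻¹.val - !![z1 * x, 0; 0, z2 * x]) i j := rfl
  rw [h3, key, Matrix.mul_apply, Fin.sum_univ_two]
  exact VD.P_add (VD.P_mul' (hE _ _) (hK.2 _ _) (by omega)) (VD.P_mul' (hE _ _) (hK.2 _ _) (by omega))

end Pool.Agent.Helper42.QD
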